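import Pool.Agent.Y742.HC.Stm1

/-!
# Common denominators
-/

set_option autoImplicit false

namespace Pool.Agent.Y328.HC

open MvPolynomial Pool.Agent.Y742.HC

section

variable {k K : Type} [Field k] [Field K] [Algebra k K] {N : ℕ} {x : Fin N → K}

theorem frac (hx : IntermediateField.adjoin k (Set.range x) = ⊤) (f : K) :
    ∃ P Q : MvPolynomial (Fin N) k, aeval x Q ≠ 0 ∧ f * aeval x Q = aeval x P := by
  have hf : f ∈ IntermediateField.adjoin k (Set.range x) := by
    rw [hx]; trivial
  rw [IntermediateField.mem_adjoin_range_iff] at hf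
  obtain ⟨r, s, hrs⟩ := hf
  by_cases hs : aeval x s = 0
  · rw [hs, div_zero] at hrs
    exact ⟨0, 1, by simp, by simp [hrs]⟩
  · exact ⟨r, s, hs, by rw [hrs, div_mul_cancel₀ _ hs]⟩

theorem lifts (hx : IntermediateField.adjoin k (Set.range x) = ⊤) (S : Finset K) :
    ∃ H : MvPolynomial (Fin N) k, aeval x H ≠ 0 ∧ ∀ c ∈ S, ∃ P : MvPolynomial (Fin N) k,
      aeval x P = aeval x H * c := by
  classical
  induction S using Finset.induction_on with
  | empty => exact ⟨1, by simp, by simp⟩
  | insert a S _ ih =>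
    obtain ⟨H, hH, h⟩ := ih
    obtain ⟨P, Q, hQ, hPQ⟩ := frac hx a
    refine ⟨H * Q, by rw [map_mul]; exact mul_ne_zero hH hQ, ?_⟩
    intro c hc
    rcases Finset.mem_insert.1 hc with rfl | hc
    · refine ⟨H * P, ?_⟩
      rw [map_mul, map_mul, ← hPQ]
      ring
    · obtain ⟨P', hP'⟩ := h c hc
      refine ⟨P' * Q, ?_⟩
      rw [map_mul, map_mul, hP']
      ring

theorem polyLifts (hx : IntermediateField.adjoin k (Set.range x) = ⊤) {ι : Type} [Fintype ι]
    (p : ι → Polynomial K) :
    ∃ (h : K) (q : ι → Polynomial (MvPolynomial (Fin N) k)), h ≠ 0 ∧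
      ∀ i, (q i).map (aeval x : MvPolynomial (Fin N) k →ₐ[k] K).toRingHom =
        Polynomial.C h * p i := by
  classical
  obtain ⟨H, hH, hl⟩ := lifts hx
    (Finset.univ.biUnion fun i => (Finset.range ((p i).natDegree + 1)).image (p i).coeff)
  have hl' : ∀ i, ∀ j : ℕ, ∃ P : MvPolynomial (Fin N) k,
      j ∈ Finset.range ((p i).natDegree + 1) → aeval x P = aeval x H * (p i).coeff j := by
    intro i j
    by_cases hj : j ∈ Finset.range ((p i).natDegree + 1)
    · obtain ⟨P, hP⟩ := hl ((p i).coeff j)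
        (Finset.mem_biUnion.2 ⟨i, Finset.mem_univ _, Finset.mem_image_of_mem _ hj⟩)
      exact ⟨P, fun _ => hP⟩
    · exact ⟨0, fun h => absurd h hj⟩
  choose L hL using hl'
  refine ⟨aeval x H, fun i => ∑ j ∈ Finset.range ((p i).natDegree + 1),
    Polynomial.monomial j (L i j), hH, fun i => ?_⟩
  rw [Polynomial.map_sum]
  conv_rhs => rw [(p i).as_sum_range, Finset.mul_sum]
  refine Finset.sum_congr rfl fun j hj => ?_
  rw [Polynomial.map_monomial, Polynomial.C_mul_monomial]
  congr 1
  exact hL i j hj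

theorem coeff_of {q : Polynomial (MvPolynomial (Fin N) k)} {p : Polynomial K} {h : K}
    (hq : q.map (aeval x : MvPolynomial (Fin N) k →ₐ[k] K).toRingHom = Polynomial.C h * p)
    (j : ℕ) : aeval x (q.coeff j) = h * p.coeff j := by
  have := congrArg (fun r => Polynomial.coeff r j) hq
  simp only [Polynomial.coeff_map, Polynomial.coeff_C_mul] at this
  exact this

theorem exists_cv (hx : IntermediateField.adjoin k (Set.range x) = ⊤)
    (nm : Fin N → Polynomial K) (dn : Polynomial K) :
    ∃ (h : K) (μ : Cv k N), h ≠ 0 ∧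
      (∀ l j, aeval x ((μ.num l).coeff j) = h * (nm l).coeff j) ∧
      (∀ j, aeval x (μ.den.coeff j) = h * dn.coeff j) ∧
      μ.pt x = fun l => algebraMap (Polynomial K) (RatFunc K) (nm l) /
        algebraMap (Polynomial K) (RatFunc K) dn := by
  obtain ⟨h, q, hh, hq⟩ := polyLifts hx (fun o : Option (Fin N) => o.elim dn nm)
  refine ⟨h, ⟨fun l => q (some l), q none⟩, hh, fun l j => coeff_of (hq (some l)) j,
    fun j => coeff_of (hq none) j, ?_⟩
  funext l
  unfold Cv.pt
  have h1 := hq (some l)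
  have h2 := hq none
  simp only [Option.elim] at h1 h2
  rw [h1, h2, map_mul, map_mul]
  refine mul_div_mul_left _ _ ?_
  intro h0
  rw [map_eq_zero_iff _ (RatFunc.algebraMap_injective K), Polynomial.C_eq_zero] at h0
  exact hh h0

end

theorem sConB : Pool.Agent.Y742.HC.SConB := by
  intro hA k K _ _ _ _ N x hx L hL
  obtain ⟨D, hD, hE, nm, dn, h0, hb, hm, hd⟩ := hA k K N x L hL
  obtain ⟨h, μ, hh, h1, h2, h3⟩ := exists_cv hx nm dn
  refine ⟨D, μ, hD, hE, ?_, ?_, ?_, ?_⟩
  · rw [h2]
    exact mul_ne_zero hh h0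
  · intro l
    rw [h1, h2, hb]
    ring
  · intro P hP
    rw [h3]
    exact hm P hP
  · intro l
    rw [h1, h2, h2]
    linear_combination h * hd l

end Pool.Agent.Y328.HC
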